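import Pool.Agent.P8H27.EQ.Thm3

/-!
# MP_ad7a55_nt: Galois orbits of special points on products: different CM fields, and almost all completions

`X = Y_1 × ... × Y_r` is a product of spaces on which the Galois group `ΓF` of a number field `F` acts on the
CM points (in the problem: modular curves `Y_j`; a factor may also be a quaternionic curve over `ℚ`).
A CM packet (`CMPacket`) is the finite set of the CM points of one order (or one type) on one factor, with the
action of the class group `A` of the order, through which the Galois group of the ring class field acts (main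
theorem of complex multiplication); complex conjugation and, more generally, each element of the absolute Galois
group `Γ` outside the one of the CM field, inverts.

The theorem has two halves.

1. If the CM fields of the coordinates of `x_i` are pairwise different and their discriminants tend to infinity,
   the Galois orbits of `x_i` are equidistributed in `X`, for all bounded continuous functions. The inputs are the
   equidistribution on each single factor for orbits of subgroups of small index (`SmallIndex`: Duke, Zhang,
   Harcos and Michel) and the main theorem of complex multiplication and genus theory (`IsCMFamily`).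
2. No condition on the CM fields outside a set `S` of coordinates, in particular all orders may be equal. If also
   the Weyl sums of the test functions have a power saving (`WeylSums`: the known subconvexity bounds), then a
   tuple `x_S` of CM points with pairwise different CM fields has the following property. For all but at most
   `ε` times all of its completions `y` by points of the given packets outside `S`, the mean of the test
   function over the Galois orbit of `y` differs from the integral by at most `ε`, as soon as all
   discriminants are at least `D₀(ε)`. For `S = ∅` or `S` a single coordinate this has no condition on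
   the fields.
-/

set_option autoImplicit false

namespace Pool.Agent.Results.MP_ad7a55_nt.AlmostAllCompletions

open MeasureTheory Filter Topology
open scoped BoundedContinuousFunction
open Pool.Agent.P8H27.EQ

/-- Equidistribution of the Galois orbits of special points on products: for pairwise different CM fields
always, and for arbitrary CM fields for almost all completions of a tuple with pairwise different CM fields. -/
theorem result {Γ : Type} [Group Γ] (ΓF : Subgroup Γ) (r : ℕ) (Y : Fin r → Type)
    [∀ j, MulAction ΓF (Y j)] [∀ j, TopologicalSpace (Y j)] [∀ j, SecondCountableTopology (Y j)]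
    [∀ j, TopologicalSpace.PseudoMetrizableSpace (Y j)] [∀ j, MeasurableSpace (Y j)]
    [∀ j, BorelSpace (Y j)] (μ : ∀ j, ProbabilityMeasure (Y j))
    (𝔓 : ∀ j, Set (CMPacket ΓF (Y j))) (h𝔓 : ∀ j, IsCMFamily (𝔓 j)) :
    ((∀ j, ∀ f : Y j →ᵇ ℝ, SmallIndex (μ j) (𝔓 j) f) →
      ∀ p : ℕ → ∀ j, CMPacket ΓF (Y j), (∀ i j, p i j ∈ 𝔓 j) →
      (∀ j, Tendsto (fun i => (p i j).disc) atTop atTop) →
      (∀ i j k, j ≠ k → (p i j).K ≠ (p i k).K) →
      ∀ x : ℕ → ∀ j, Y j, (∀ i j, x i j ∈ (p i j).pts) → ∀ f : (∀ j, Y j) →ᵇ ℝ,
      Tendsto (fun i => mean f (fun y : MulAction.orbit ΓF (x i) => (y : ∀ j, Y j))) atTop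
        (𝓝 (∫ y, f y ∂(Measure.pi fun j => (μ j : Measure (Y j)))))) ∧
    ((∀ j, ∀ p ∈ 𝔓 j, ∀ z z' : p.pts, ∃ a : p.A, a • z = z') →
      ∀ f : ∀ j, Y j → ℝ, (∀ j y, |f j y| ≤ 1) → (∀ j, SmallIndex (μ j) (𝔓 j) (f j)) →
      (∀ j, WeylSums (𝔓 j) (f j)) → ∀ (S : Finset (Fin r)) (ε : ℝ), 0 < ε →
      ∃ D₀ : ℕ, ∀ p : ∀ j, CMPacket ΓF (Y j), (∀ j, p j ∈ 𝔓 j) → (∀ j, D₀ ≤ (p j).disc) →
      (∀ j ∈ S, ∀ k ∈ S, j ≠ k → (p j).K ≠ (p k).K) → ∀ x : ∀ j, (p j).pts,
      (Nat.card {y : ∀ j, (p j).pts // (∀ j ∈ S, y j = x j) ∧
        ε < |mean (fun z : ∀ j, Y j => ∏ j, f j (z j))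
          (fun z : MulAction.orbit ΓF (fun j => (y j : Y j)) => (z : ∀ j, Y j)) -
            ∏ j, ∫ z, f j z ∂(μ j : Measure (Y j))|} : ℝ) ≤
      ε * Nat.card {y : ∀ j, (p j).pts // ∀ j ∈ S, y j = x j}) :=
  ⟨fun hμ p hp hdisc hK x hx f => thm1 μ 𝔓 h𝔓 hμ p hp hdisc hK x hx f,
    fun htr f hf hμ hW S ε hε => thm2 μ 𝔓 h𝔓 htr f hf hμ hW S ε hε⟩

end Pool.Agent.Results.MP_ad7a55_nt.AlmostAllCompletions
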