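import Pool.Agent.P8H27.LJ.Eff

/-!
# MP_ad7a55_nt: rates of equidistribution for large Galois orbits of tuples of CM points, over arbitrary fields

`G` is the Galois group of a number field `F`, `Y_1, ..., Y_r` are modular curves over `F` (for the theorem: spaces
with an action of `G` on the CM points and a probability measure), `S_j` are the CM points of `Y_j` with their
discriminants (`SpecialPoints`: a normal subgroup of bounded index of `G` acts on the Galois orbit of a CM point
through a commutative group; no class groups are mentioned).

Hypothesis (`LargeOrbitsRate`), on every single factor: the mean of `g_j` over the orbit `V z` of a CM point `z` under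
a subgroup `V` of `G` (the Galois group of an extension of `F`), such that `V z` has at least `disc ^ (-η)` times as
many elements as `G z`, differs from the integral by at most `C_j disc ^ (-δ_j)`. For modular curves and smooth
functions this is known for some `η, δ_j > 0` (Duke; Zhang; Harcos and Michel).

Theorem. Let `x` be a tuple of CM points with large discriminants, `K` an ARBITRARY extension of `F` with Galois
group `U`, such that each `x_j` has large degree over the field generated over `K` by the other coordinates (`others
U x j` is its Galois group): at least `disc ^ (-η')` times the degree of `x_j` over `F`, `η' < η`. Then the mean of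
`g_1(z_1) ... g_r(z_r)` over the orbit `U x` differs from the product of the integrals by at most the sum of the
errors of the factors, `∑ C_j disc(x_j) ^ (-δ_j)`. The CM fields of the coordinates can be equal.

`LargeOrbits` on this problem is the qualitative statement for `K = F` and packets of CM points with a transitive
action of the class group.
-/

set_option autoImplicit false

namespace Pool.Agent.Results.MP_ad7a55_nt.EffectiveLargeOrbits

open MeasureTheory
open Pool.Agent.P8H27.LJ
open Pool.Agent.P8H27.EQ (mean)

/-- **The rate of equidistribution of large Galois orbits of tuples of CM points, over arbitrary fields.** -/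
theorem result {G : Type} [Group G] (r : ℕ) (Y : Fin r → Type) [∀ j, MulAction G (Y j)]
    [∀ j, MeasurableSpace (Y j)] (μ : ∀ j, ProbabilityMeasure (Y j))
    (S : ∀ j, SpecialPoints G (Y j)) (η η' : ℝ) (hη : η' < η) (δ C : Fin r → ℝ) (g : ∀ j, Y j → ℝ)
    (hg : ∀ j y, |g j y| ≤ 1) (hR : ∀ j, LargeOrbitsRate η (δ j) (C j) (μ j) (S j) (g j)) :
    ∃ D₀ : ℕ, ∀ x : ∀ j, Y j, (∀ j, x j ∈ (S j).pts ∧ D₀ ≤ (S j).disc (x j)) →
      ∀ U : Subgroup G, (∀ j, IsLarge (S j) η' (others U x j) (x j)) →
      |mean (fun z : ∀ j, Y j => ∏ j, g j (z j))
          (fun y : MulAction.orbit U x => (y : ∀ j, Y j)) -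
        ∏ j, ∫ y, g j y ∂(μ j : Measure (Y j))| ≤ ∑ j, C j * ((S j).disc (x j) : ℝ) ^ (-δ j) :=
  effective μ S hη δ C g hg hR

end Pool.Agent.Results.MP_ad7a55_nt.EffectiveLargeOrbits
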