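import Pool.Agent.P8H27.LO.Main

/-!
# MP_ad7a55_nt: large Galois orbits of special points on products are equidistributed

`X = Y_1 × ... × Y_r` is a product of spaces on which the Galois group `G` of a number field `F` acts on the CM
points (in the problem: modular curves `Y_j`). A packet (`GaloisPacket`) is the finite set `pts` of the CM points
of one discriminant `disc` on one factor, with the transitive action of the class group `A`, through which a
normal subgroup `E` of `G` of bounded index (the Galois group over the CM field) acts.

The theorem. Let `x_i` be special points of `X`, such that the discriminants of all coordinates tend to infinity.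
Suppose that for every coordinate `j` the Galois orbit of `x_i` is large relative to the Galois orbit of the
tuple of the other coordinates: the quotient of their sizes, that is, the degree of the coordinate `x_(i,j)` over
the field of definition of the other coordinates, is at least the number of all points of the packet,
divided by `disc ^ η'`. Then the Galois orbits of the `x_i` are equidistributed in `X`, for all bounded
continuous functions.

Here `η'` is any number which is less than an exponent `η` such that on every single factor the orbits of all
subgroups of the class groups of index at most `disc ^ η` are equidistributed (`SmallIndexAt`). For modular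
curves this is known for some `η > 0` (Duke, Zhang, Harcos and Michel), and the class number is
`disc ^ (1 / 2 + o (1))`; so the condition says that the degree of each coordinate over the field generated by
the other ones is at least `disc ^ (1 / 2 - η'')`.

The CM fields of the coordinates may be equal. The condition holds for example if a coordinate has a CM field
different from the CM fields of all other coordinates (up to the two-torsion of the class group), or if its order
generates, with the orders of the other coordinates with the same CM field, orders whose discriminants are at
most a small power of `disc`, for instance for one CM field and coprime conductors.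

Proof. Let `H` be the image in the product of the groups `A` of the intersection of the groups `E`. For a point
`y` of the Galois orbit let `Hh` be the group generated by `H` and the stabilizer of `y`. The elements of `A_j`
which belong, as elements of the product, to `Hh`, form a group `B_j`, and an exact formula
(`Pool.Agent.P8H27.LO.relative`) expresses its index by the sizes of the orbits. So the index of `B_j` is small,
and the orbit of `y` under `H` is a union of orbits of the product of the `B_j`.
-/

set_option autoImplicit false

namespace Pool.Agent.Results.MP_ad7a55_nt.LargeOrbits

open MeasureTheory Filter Topology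
open scoped BoundedContinuousFunction
open Pool.Agent.P8H27.LO
open Pool.Agent.P8H27.EQ (mean)

/-- **Large Galois orbits are equidistributed**: if the Galois orbits of the special points `x i` of the product
of the `Y j` have, relative to the Galois orbits of the tuples of the coordinates different from `j`, at least
the size `#pts / disc ^ η'`, for all `j`, then they are equidistributed. -/
theorem result {G : Type} [Group G] (r : ℕ) (Y : Fin r → Type)
    [∀ j, MulAction G (Y j)] [∀ j, TopologicalSpace (Y j)] [∀ j, SecondCountableTopology (Y j)]
    [∀ j, TopologicalSpace.PseudoMetrizableSpace (Y j)] [∀ j, MeasurableSpace (Y j)]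
    [∀ j, BorelSpace (Y j)] (μ : ∀ j, ProbabilityMeasure (Y j))
    (𝔓 : ∀ j, Set (GaloisPacket G (Y j))) (h𝔓 : ∀ j, BoundedDegree (𝔓 j)) (η η' : ℝ)
    (hη : η' < η) (hμ : ∀ j, ∀ f : Y j →ᵇ ℝ, SmallIndexAt η (μ j) (𝔓 j) f)
    (p : ℕ → ∀ j, GaloisPacket G (Y j)) (hp : ∀ i j, p i j ∈ 𝔓 j)
    (hdisc : ∀ j, Tendsto (fun i => (p i j).disc) atTop atTop)
    (x : ℕ → ∀ j, Y j) (hx : ∀ i j, x i j ∈ (p i j).pts)
    (hsize : ∀ᶠ i in atTop, ∀ j, (Nat.card (p i j).pts : ℝ) *
        Nat.card (MulAction.orbit G fun k : {k : Fin r // k ≠ j} => x i k) ≤
      ((p i j).disc : ℝ) ^ η' * Nat.card (MulAction.orbit G (x i)))
    (f : (∀ j, Y j) →ᵇ ℝ) :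
    Tendsto (fun i => mean f (fun y : MulAction.orbit G (x i) => (y : ∀ j, Y j))) atTop
      (𝓝 (∫ y, f y ∂(Measure.pi fun j => (μ j : Measure (Y j))))) :=
  largeOrbits μ 𝔓 h𝔓 hη hμ p hp hdisc x hx hsize f

end Pool.Agent.Results.MP_ad7a55_nt.LargeOrbits
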