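import Pool.Agent.P8H27.DC.Pow

/-!
# MP_ad7a55_nt: power saving, and all partners of small discriminant simultaneously

`G` is the Galois group of a number field `F`, `Y_1, ..., Y_t` are modular curves over `F` (for the theorem:
measurable spaces with an action of `G` on the CM points and a probability measure), with the packets of the CM
points of one discriminant (`GaloisPacket`: the class group `A` acts transitively, and the Galois group over an
extension of bounded degree acts through `A`). The means of the functions `g_j` over the packets converge with a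
power saving (Duke; `ConvergeFast`), and so do their Weyl sums (Harcos and Michel, Zhang; `WeylSums`).

Theorem. There are `κ > 0` and `D₀` such that for all `D ≥ D₀`, all packets with discriminants at least `D` and all
but a proportion `D ^ (-κ)` of the tuples `y` of CM points of these packets the following holds. For any given
family of at most `D ^ κ` algebraic points `x_i` on varieties `X_i` over `F` (points with finite Galois orbits, in
arbitrary `G`-sets), for example for ALL the CM points of discriminant at most a small power of `D` on modular
curves, and given functions `f_i` bounded by one, the Galois orbit of `(x_i, y)` decouples for ALL `i`: the mean of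
`f_i(x') g_1(y'_1) ... g_t(y'_t)` over the conjugates of `(x_i, y)` differs from the mean of `f_i` over the conjugates
of `x_i` times the product of the integrals of the `g_j` by at most `D ^ (-κ)`.

The CM fields are arbitrary: all packets and all `x_i` may have the same CM field, the packets may be equal, and the
fields of definition of the `x_i` may contain the field of definition of `y`.
-/

set_option autoImplicit false

namespace Pool.Agent.Results.MP_ad7a55_nt.SimultaneousPartners

open MeasureTheory
open Pool.Agent.P8H27.LO (GaloisPacket)
open Pool.Agent.P8H27.DC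
open Pool.Agent.P8H27.EQ (mean)

/-- **Decoupling of Galois orbits with a power saving, for almost all tuples of CM points and simultaneously for
many algebraic points.** -/
theorem result {G : Type} [Group G] (t : ℕ) (Y : Fin t → Type) [∀ j, MulAction G (Y j)]
    [∀ j, MeasurableSpace (Y j)] (μ : ∀ j, ProbabilityMeasure (Y j))
    (𝔓 : ∀ j, Set (GaloisPacket G (Y j))) (h𝔓 : ∀ j, IsRich (𝔓 j)) (g : ∀ j, Y j → ℝ)
    (hg : ∀ j y, |g j y| ≤ 1) (hc : ∀ j, ConvergeFast (μ j) (𝔓 j) (g j))
    (hW : ∀ j, WeylSums (𝔓 j) (g j)) :
    ∃ κ : ℝ, 0 < κ ∧ ∃ D₀ : ℕ, ∀ D : ℕ, D₀ ≤ D → ∀ p : ∀ j, GaloisPacket G (Y j),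
      (∀ j, p j ∈ 𝔓 j) → (∀ j, D ≤ (p j).disc) →
      ∀ (J : Type) [Finite J] (X : J → Type) [∀ i, MulAction G (X i)] (x : ∀ i, X i),
      (∀ i, (MulAction.orbit G (x i)).Finite) → ∀ f : ∀ i, X i → ℝ, (∀ i z, |f i z| ≤ 1) →
      (Nat.card J : ℝ) ≤ (D : ℝ) ^ κ →
      (Nat.card {y : ∀ j, (p j).pts // ∃ i, (D : ℝ) ^ (-κ) <
        |mean (fun z : X i × (∀ j, Y j) => f i z.1 * ∏ j, g j (z.2 j))
          (fun z : MulAction.orbit G ((x i, fun j => (y j : Y j)) : X i × (∀ j, Y j)) =>
            (z : X i × (∀ j, Y j))) -
          mean (f i) (fun z : MulAction.orbit G (x i) => (z : X i)) *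
            ∏ j, ∫ y, g j y ∂(μ j : Measure (Y j))|} : ℝ) ≤
      (D : ℝ) ^ (-κ) * Nat.card (∀ j, (p j).pts) :=
  power μ 𝔓 h𝔓 g hg hc hW

end Pool.Agent.Results.MP_ad7a55_nt.SimultaneousPartners
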